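import Pool.Agent.N822.TZ.Stm

/-!
# TZ/PRES: the Morse extension of the odometer preserves the measure (helper225 for helper822)
-/

set_option autoImplicit false

open Set Topology MeasureTheory Filter

open scoped ENNReal

noncomputable section

namespace Pool.Agent.N225.TZ

open Pool.Agent.N822.TZ

lemma measurable_valuation : Measurable fun u : ℤ_[2] => u.valuation := by
  refine measurable_to_countable' fun n => ?_
  have h : (fun u : ℤ_[2] => u.valuation) ⁻¹' {n} =
      {u : ℤ_[2] | ‖u‖ = (2 : ℝ) ^ (-(n : ℤ))} ∪ {u : ℤ_[2] | u = 0 ∧ n = 0} := by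
    ext u
    rw [mem_preimage, mem_singleton_iff, mem_union]
    change _ ↔ ‖u‖ = (2 : ℝ) ^ (-(n : ℤ)) ∨ (u = 0 ∧ n = 0)
    by_cases hu : u = 0
    · subst hu
      rw [PadicInt.valuation_zero, norm_zero]
      have : (2 : ℝ) ^ (-(n : ℤ)) ≠ 0 := by positivity
      constructor
      · intro h
        exact Or.inr ⟨rfl, h.symm⟩
      · rintro (h | h)
        · exact absurd h.symm this
        · exact h.2.symm
    · have h1 := PadicInt.norm_eq_zpow_neg_valuation hu
      rw [h1]
      constructor
      · intro h
        left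
        rw [h]
        norm_num
      · rintro (h | h)
        · have h2 := zpow_right_injective₀ (a := (2 : ℝ)) (by norm_num) (by norm_num)
            (show (2 : ℝ) ^ (-(u.valuation : ℤ)) = (2 : ℝ) ^ (-(n : ℤ)) by exact_mod_cast h)
          omega
        · exact absurd h.1 hu
  rw [h]
  refine MeasurableSet.union (isClosed_eq continuous_norm continuous_const).measurableSet ?_
  by_cases hn : n = 0
  · have : {u : ℤ_[2] | u = 0 ∧ n = 0} = {0} := by
      ext u; simp [hn]
    rw [this]
    exact isClosed_singleton.measurableSet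
  · have : {u : ℤ_[2] | u = 0 ∧ n = 0} = ∅ := by
      ext u; simp [hn]
    rw [this]
    exact MeasurableSet.empty

theorem measurable_phi : Measurable phi := by
  have h1 : Measurable fun z : ℤ_[2] => (z + 1).valuation :=
    measurable_valuation.comp (measurable_id.add_const 1)
  exact (Measurable.of_discrete (f := fun n : ℕ => decide (Even n))).comp h1

lemma measurable_xor {f g : Om → Bool} (hf : Measurable f) (hg : Measurable g) :
    Measurable fun ω => xor (f ω) (g ω) :=
  (Measurable.of_discrete (f := fun p : Bool × Bool => xor p.1 p.2)).comp (hf.prodMk hg)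

theorem measurable_T : Measurable (T : Om → Om) :=
  (measurable_fst.add_const 1).prodMk
    (measurable_xor measurable_snd (measurable_phi.comp measurable_fst))

theorem measurable_T_symm : Measurable (T.symm : Om → Om) :=
  (measurable_fst.sub_const 1).prodMk
    (measurable_xor measurable_snd (measurable_phi.comp (measurable_fst.sub_const 1)))

theorem measurable_T_zpow : ∀ n : ℤ, Measurable ((T ^ n : Equiv.Perm Om) : Om → Om) := by
  intro n
  cases n with
  | ofNat n =>
    rw [Int.ofNat_eq_natCast, zpow_natCast, Equiv.Perm.coe_pow]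
    exact measurable_T.iterate n
  | negSucc n =>
    rw [zpow_negSucc, ← inv_pow, Equiv.Perm.coe_pow]
    exact measurable_T_symm.iterate (n + 1)

lemma rho_apply {E : Set Om} (hE : MeasurableSet E) :
    rho E = (2 : ℝ≥0∞)⁻¹ * (la {z | (z, false) ∈ E} + la {z | (z, true) ∈ E}) := by
  unfold rho
  rw [Measure.smul_apply, Measure.add_apply, Measure.map_apply measurable_prodMk_right hE,
    Measure.map_apply measurable_prodMk_right hE, smul_eq_mul]
  rfl

theorem t_PRES : S_PRES := by
  refine ⟨measurable_T, ?_⟩
  ext E hE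
  rw [Measure.map_apply measurable_T hE, rho_apply (measurable_T hE), rho_apply hE]
  congr 1
  have hP : MeasurableSet {z : ℤ_[2] | phi z = false} := measurable_phi (measurableSet_singleton _)
  have key : ∀ b : Bool, la {z | (z, b) ∈ T ⁻¹' E} =
      la (((fun z => z + 1) ⁻¹' {z | (z, b) ∈ E}) ∩ {z : ℤ_[2] | phi z = false}) +
      la (((fun z => z + 1) ⁻¹' {z | (z, !b) ∈ E}) \ {z : ℤ_[2] | phi z = false}) := by
    intro b
    rw [← measure_inter_add_sdiff {z | (z, b) ∈ T ⁻¹' E} hP]
    congr 2
    · ext z
      change (((z + 1, xor b (phi z)) : Om) ∈ E ∧ phi z = false) ↔ (((z + 1, b) : Om) ∈ E ∧ phi z = false)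
      constructor
      · rintro ⟨h1, h2⟩
        rw [h2, Bool.xor_false] at h1
        exact ⟨h1, h2⟩
      · rintro ⟨h1, h2⟩
        rw [h2, Bool.xor_false]
        exact ⟨h1, rfl⟩
    · ext z
      change (((z + 1, xor b (phi z)) : Om) ∈ E ∧ ¬ phi z = false) ↔
        (((z + 1, !b) : Om) ∈ E ∧ ¬ phi z = false)
      constructor
      · rintro ⟨h1, h2⟩
        rw [Bool.not_eq_false] at h2
        rw [h2, Bool.xor_true] at h1
        exact ⟨h1, by rw [h2]; decide⟩
      · rintro ⟨h1, h2⟩
        rw [Bool.not_eq_false] at h2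
        rw [h2, Bool.xor_true]
        exact ⟨h1, by decide⟩
  rw [key false, key true]
  have hf := measure_inter_add_sdiff (μ := la) ((fun z => z + 1) ⁻¹' {z | (z, false) ∈ E}) hP
  have ht := measure_inter_add_sdiff (μ := la) ((fun z => z + 1) ⁻¹' {z | (z, true) ∈ E}) hP
  rw [measure_preimage_add_right] at hf ht
  rw [← hf, ← ht, Bool.not_false, Bool.not_true]
  abel

end Pool.Agent.N225.TZ
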